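import Pool.Agent.H8.AT.Main

/-!
# The lower limit along sets with small gaps, of positive density, and along residue classes
-/

set_option autoImplicit false

namespace Pool.Agent.H8.AT

open Finset Filter H63.WP N5dc7309f

theorem ncard_win (N V : ℕ) (h : V ≤ N) (P : ℕ → Prop) [DecidablePred P] :
    {n : ℕ | N < n + V ∧ n ≤ N ∧ P n}.ncard = ((Ioc (N - V) N).filter P).card := by
  have h1 : {n : ℕ | N < n + V ∧ n ≤ N ∧ P n} = (((Ioc (N - V) N).filter P : Finset ℕ) : Set ℕ) := by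
    ext n
    rw [mem_coe, mem_filter, mem_Ioc]
    constructor
    · rintro ⟨a, b, c⟩
      exact ⟨⟨by omega, b⟩, c⟩
    · rintro ⟨⟨a, b⟩, c⟩
      exact ⟨by omega, b, c⟩
  rw [h1, Set.ncard_coe_finset]

theorem general (A : Set ℕ) (η : ℝ) (hη : 0 < η)
    (hA : ∀ s δ : ℝ, 0 < s → s < 1 → 0 < δ → δ < 1 → ∀ᶠ N : ℕ in atTop, ∀ V : ℕ,
      (N : ℝ) ^ s ≤ V → 2 * V ≤ N →
      η * V ≤ ({n : ℕ | N < n + V ∧ n ≤ N ∧ Near A δ n}.ncard : ℝ)) : lowOn A = low f := by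
  classical
  refine main A η hη ?_
  intro s δ hs hs1 hδ0 hδ1
  filter_upwards [hA s δ hs hs1 hδ0 hδ1] with N hN V hV1 hV2
  have h1 := hN V hV1 hV2
  rw [ncard_win N V (by omega) (Near A δ)] at h1
  convert h1

theorem gaps (A : Set ℕ) (hA : ∀ δ : ℝ, 0 < δ → ∀ᶠ n : ℕ in atTop, Near A δ n) :
    lowOn A = low f := by
  classical
  refine general A 1 one_pos ?_
  intro s δ hs hs1 hδ0 hδ1
  obtain ⟨n0, hn0⟩ := eventually_atTop.1 (hA δ hδ0)
  filter_upwards [eventually_ge_atTop (2 * n0 + 2)] with N hN V hV1 hV2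
  rw [ncard_win N V (by omega) (Near A δ)]
  have h1 : (Ioc (N - V) N).filter (Near A δ) = Ioc (N - V) N := by
    refine filter_true_of_mem fun n hn => ?_
    rw [mem_Ioc] at hn
    exact hn0 n (by omega)
  rw [h1, Nat.card_Ioc, one_mul]
  have h2 : N - (N - V) = V := by omega
  rw [h2]

theorem dense (A : Set ℕ) (η : ℝ) (hη : 0 < η)
    (hA : ∀ s : ℝ, 0 < s → s < 1 → ∀ᶠ N : ℕ in atTop, ∀ V : ℕ, (N : ℝ) ^ s ≤ V → 2 * V ≤ N →
      η * V ≤ ({n : ℕ | N < n + V ∧ n ≤ N ∧ n ∈ A}.ncard : ℝ)) : lowOn A = low f := by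
  classical
  refine general A η hη ?_
  intro s δ hs hs1 hδ0 hδ1
  filter_upwards [hA s hs hs1, eventually_ge_atTop 4] with N hN hN4 V hV1 hV2
  refine (hN V hV1 hV2).trans ?_
  rw [ncard_win N V (by omega) (Near A δ), ncard_win N V (by omega) (fun n => n ∈ A)]
  have h1 : (Ioc (N - V) N).filter (fun n => n ∈ A) ⊆ (Ioc (N - V) N).filter (Near A δ) := by
    intro n hn
    rw [mem_filter, mem_Ioc] at hn
    rw [mem_filter, mem_Ioc]
    refine ⟨hn.1, n, hn.2, le_rfl, ?_⟩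
    have h2 : (1 : ℝ) < n := by
      have : 1 < n := by omega
      exact_mod_cast this
    have h3 : 0 < δ * Real.log n := mul_pos hδ0 (Real.log_pos h2)
    linarith
  exact_mod_cast card_le_card h1

theorem residue (q r : ℕ) (hq : 1 ≤ q) : lowOn {n : ℕ | n ≡ r [MOD q]} = low f := by
  refine gaps _ ?_
  intro δ hδ
  have e1 : ∀ᶠ n : ℕ in atTop, ((q : ℝ) + 1) / δ ≤ Real.log n :=
    (Real.tendsto_log_atTop.comp tendsto_natCast_atTop_atTop).eventually_ge_atTop _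
  filter_upwards [e1, eventually_ge_atTop q] with n h1 h2
  have hk : (n + (q - 1) * r) % q < q := Nat.mod_lt _ hq
  have hkk : (n + (q - 1) * r) % q ≡ n + (q - 1) * r [MOD q] := Nat.mod_modEq _ _
  obtain ⟨k, hkd⟩ : ∃ k : ℕ, k = (n + (q - 1) * r) % q := ⟨_, rfl⟩
  rw [← hkd] at hk hkk
  have hkn : k ≤ n := by omega
  refine ⟨n - k, ?_, Nat.sub_le _ _, ?_⟩
  · have h3 : r + k ≡ r + (n + (q - 1) * r) [MOD q] := hkk.add_left r
    have h4 : r + (n + (q - 1) * r) = n + q * r := by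
      obtain ⟨m, rfl⟩ : ∃ m, q = m + 1 := ⟨q - 1, by omega⟩
      rw [Nat.add_sub_cancel]
      ring
    rw [h4] at h3
    have h5 : n + q * r ≡ n [MOD q] := by
      have h7 : q * r ≡ 0 [MOD q] := (Nat.modEq_zero_iff_dvd).2 (Dvd.intro _ rfl)
      simpa using h7.add_left n
    have h6 : (n - k) + k ≡ r + k [MOD q] := by
      rw [Nat.sub_add_cancel hkn]
      exact (h3.trans h5).symm
    exact Nat.ModEq.add_right_cancel' k h6
  · have h3 : ((n - k : ℕ) : ℝ) = (n : ℝ) - k := by rw [Nat.cast_sub hkn]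
    rw [h3]
    rw [div_le_iff₀ hδ] at h1
    have h4 : (k : ℝ) < q := by exact_mod_cast hk
    linarith

/-- Gaps `≤ d log n` change the lower limit by `O(√d)` only. -/
theorem small_gaps : ∃ K : ℝ, 0 < K ∧ ∀ d : ℝ, 0 < d → d ≤ 1 / K → ∀ A : Set ℕ,
    (∀ᶠ n : ℕ in atTop, Near A d n) →
      low f ≤ lowOn A ∧ lowOn A ≤ low f + ((K * √d : ℝ) : EReal) := by
  classical
  obtain ⟨L, hL, hL0, hL1⟩ := exists_real (low_nonneg f_nonneg) f_low_le_one
  obtain ⟨C, hC, hpi⟩ := Pool.Agent.H24.LJ.pi_loc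
  obtain ⟨K0, hK0e⟩ : ∃ K0 : ℝ, K0 = max 2 (672 * C) := ⟨_, rfl⟩
  have hK2 : 2 ≤ K0 := by rw [hK0e]; exact le_max_left _ _
  have hKC : 672 * C ≤ K0 := by rw [hK0e]; exact le_max_right _ _
  refine ⟨K0 + 1, by linarith, fun d hd hdK A hA => ⟨liminf_le_liminf_of_le inf_le_left, ?_⟩⟩
  have hKd : K0 * d ≤ 1 := by
    rw [le_div_iff₀ (by linarith)] at hdK
    nlinarith
  obtain ⟨κ, hκe⟩ : ∃ κ : ℝ, κ = √(K0 * d) := ⟨_, rfl⟩
  have hκ : 0 < κ := by
    rw [hκe]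
    exact Real.sqrt_pos.2 (by positivity)
  have hκ2 : κ ^ 2 = K0 * d := by
    rw [hκe]
    exact Real.sq_sqrt (by positivity)
  have hκ1 : κ ≤ 1 := by
    by_contra hcon
    push Not at hcon
    nlinarith
  have hT2 : 2 ≤ 3 / κ := by
    rw [le_div_iff₀ hκ]
    linarith
  have hTc : (L + 2 * κ) / (3 / κ) ≤ κ := by
    rw [div_le_iff₀ (by positivity)]
    have h1 : κ * (3 / κ) = 3 := by field_simp
    rw [h1]
    linarith
  have hδ2 : 2 * (3 / κ) * d * C / (κ / 28) ≤ 1 / 4 := by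
    have h1 : 2 * (3 / κ) * d * C / (κ / 28) = 168 * (d * C) / κ ^ 2 := by
      field_simp
      ring
    rw [h1, div_le_iff₀ (by positivity), hκ2]
    nlinarith
  have hfr := core_e L hL hL1 κ (1 / 4) (κ / 28) hκ (by positivity) (by linarith) (by linarith)
    (by linarith)
  obtain ⟨n0, hn0⟩ := eventually_atTop.1 hA
  have h := key A 1 one_pos L κ (κ / 28) d C (3 / κ) hκ (by positivity) hd (by nlinarith) hC hpi
    hT2 hTc hδ2 hfr (by
      filter_upwards [eventually_ge_atTop (2 * n0 + 2)] with N hN V hV1 hV2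
      have h1 : (Ioc (N - V) N).filter (Near A d) = Ioc (N - V) N := by
        refine filter_true_of_mem fun n hn => ?_
        rw [mem_Ioc] at hn
        exact hn0 n (by omega)
      rw [h1, Nat.card_Ioc, one_mul]
      have h2 : N - (N - V) = V := by omega
      rw [h2])
  rw [hL]
  refine h.trans ?_
  have h3 : 2 * κ ≤ (K0 + 1) * √d := by
    rw [hκe, Real.sqrt_mul (by linarith)]
    have h4 : 2 * √K0 ≤ K0 + 1 := by
      have h5 := Real.sq_sqrt (show 0 ≤ K0 by linarith)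
      nlinarith [sq_nonneg (√K0 - 1)]
    have h6 := mul_le_mul_of_nonneg_right h4 (Real.sqrt_nonneg d)
    linarith
  exact_mod_cast (by linarith : L + 2 * κ ≤ L + (K0 + 1) * √d)

/-- The lower limit is a typical value on long windows. -/
theorem typical : ∃ L : ℝ, low f = L ∧ 0 ≤ L ∧ L ≤ 1 ∧ ∀ κ ε : ℝ, 0 < κ → 0 < ε →
    ∃ s : ℝ, 0 < s ∧ s < 1 ∧ ∃ᶠ N : ℕ in atTop, ∃ V : ℕ, (N : ℝ) ^ s ≤ V ∧ 2 * V ≤ N ∧
      ({n : ℕ | N < n + V ∧ n ≤ N ∧ κ < |f n - L|}.ncard : ℝ) ≤ ε * V := by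
  classical
  obtain ⟨L, hL, hL0, hL1⟩ := exists_real (low_nonneg f_nonneg) f_low_le_one
  refine ⟨L, hL, hL0, hL1, fun κ ε hκ hε => ?_⟩
  obtain ⟨s, hs, hs1, hfr⟩ := core L hL hL1 κ ε hκ hε
  refine ⟨s, hs, hs1, hfr.mono ?_⟩
  rintro N ⟨V, h1, h2, h3⟩
  refine ⟨V, h1, h2, ?_⟩
  rw [ncard_win N V (by omega) (fun n => κ < |f n - L|)]
  convert h3

end Pool.Agent.H8.AT
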