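import Pool.Agent.H63.WP.Lim

/-!
# The lower limit of the reciprocal sum over primes is attained by almost all integers of long windows
-/

set_option autoImplicit false

namespace Pool.Agent.H8.AT

open Finset Filter H63.WP N5dc7309f

theorem core_e (L : ℝ) (hL : low f = L) (hL1 : L ≤ 1) (κ ε e : ℝ) (hκ : 0 < κ) (he0 : 0 < e) (he1 : e ≤ 1 / 2)
    (he2 : e ≤ κ) (he3 : e ≤ κ * ε / 7) :
    ∃ᶠ N : ℕ in atTop, ∃ V : ℕ, (N : ℝ) ^ e ≤ V ∧ 2 * V ≤ N ∧
      (((Ioc (N - V) N).filter (fun n => κ < |f n - L|)).card : ℝ) ≤ ε * V := by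
  have hfreq : ∃ᶠ N : ℕ in atTop, f N < L + e := by
    have h1 : low f < ((L + e : ℝ) : EReal) := by
      rw [hL]
      exact_mod_cast (by linarith : L < L + e)
    have h2 : ∃ᶠ n : ℕ in atTop, ((f n : ℝ) : EReal) < ((L + e : ℝ) : EReal) :=
      frequently_lt_of_liminf_lt (h := h1)
    exact h2.mono fun n hn => by exact_mod_cast hn
  have hev : ∀ᶠ n : ℕ in atTop, L - e < f n := ev_of_lt_low (by
    rw [hL]
    exact_mod_cast (by linarith : L - e < L))
  obtain ⟨n0, hn0⟩ := eventually_atTop.1 hev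
  have hloc := local_principle e he0 (by linarith) 1 le_rfl e he0
  refine (hfreq.and_eventually (hloc.and (eventually_ge_atTop (2 * n0 + 2)))).mono ?_
  rintro N ⟨h1, ⟨V, h2, h3, h4⟩, h5⟩
  rw [one_mul] at h2
  refine ⟨V, h2, h3, ?_⟩
  have hN1 : (1 : ℝ) ≤ N := by exact_mod_cast (by omega : 1 ≤ N)
  have hV1 : (1 : ℝ) ≤ V := (Real.one_le_rpow hN1 he0.le).trans h2
  have h6 : far e N ≤ f N := far_le e N
  have h7 : (1 - e) * ((∑ n ∈ Ioc (N - V) N, f n) / V) ≤ L + 2 * e := by linarith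
  have h8 : (∑ n ∈ Ioc (N - V) N, f n) / V ≤ L + 6 * e := by
    by_contra hcon
    push Not at hcon
    have h9 : (1 - e) * (L + 6 * e) < (1 - e) * ((∑ n ∈ Ioc (N - V) N, f n) / V) :=
      mul_lt_mul_of_pos_left hcon (by linarith)
    nlinarith
  rw [div_le_iff₀ (by linarith)] at h8
  have h10 : κ * (((Ioc (N - V) N).filter (fun n => κ < |f n - L|)).card : ℝ) ≤
      ∑ n ∈ Ioc (N - V) N, (f n - (L - e)) := by
    rw [mul_comm, ← nsmul_eq_mul, ← sum_const]
    have hw : ∀ n ∈ Ioc (N - V) N, L - e < f n := by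
      intro n hn
      rw [mem_Ioc] at hn
      exact hn0 n (by omega)
    calc ∑ _n ∈ (Ioc (N - V) N).filter (fun n => κ < |f n - L|), κ
        ≤ ∑ n ∈ (Ioc (N - V) N).filter (fun n => κ < |f n - L|), (f n - (L - e)) := by
          refine sum_le_sum fun n hn => ?_
          rw [mem_filter] at hn
          have h11 := hw n hn.1
          have h12 := hn.2
          rcases lt_abs.1 h12 with h13 | h13
          · linarith
          · linarith
      _ ≤ ∑ n ∈ Ioc (N - V) N, (f n - (L - e)) :=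
          sum_le_sum_of_subset_of_nonneg (filter_subset _ _) fun n hn _ => by
            have := hw n hn
            linarith
  rw [sum_sub_distrib, sum_const, Nat.card_Ioc, nsmul_eq_mul] at h10
  have h14 : ((N - (N - V) : ℕ) : ℝ) = V := by
    congr 1
    omega
  rw [h14] at h10
  have h15 : κ * (((Ioc (N - V) N).filter (fun n => κ < |f n - L|)).card : ℝ) ≤ κ * (ε * V) := by
    have h16 : 7 * e * V ≤ κ * ε * V := by
      refine mul_le_mul_of_nonneg_right ?_ (by linarith)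
      linarith
    nlinarith
  exact le_of_mul_le_mul_left h15 hκ

theorem core (L : ℝ) (hL : low f = L) (hL1 : L ≤ 1) (κ ε : ℝ) (hκ : 0 < κ) (hε : 0 < ε) :
    ∃ s : ℝ, 0 < s ∧ s < 1 ∧ ∃ᶠ N : ℕ in atTop, ∃ V : ℕ, (N : ℝ) ^ s ≤ V ∧ 2 * V ≤ N ∧
      (((Ioc (N - V) N).filter (fun n => κ < |f n - L|)).card : ℝ) ≤ ε * V := by
  obtain ⟨e, he⟩ : ∃ e : ℝ, e = min (1 / 2) (min κ (κ * ε / 7)) := ⟨_, rfl⟩
  have he0 : 0 < e := by rw [he]; positivity
  have he1 : e ≤ 1 / 2 := by rw [he]; exact min_le_left _ _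
  have he2 : e ≤ κ := by rw [he]; exact (min_le_right _ _).trans (min_le_left _ _)
  have he3 : e ≤ κ * ε / 7 := by rw [he]; exact (min_le_right _ _).trans (min_le_right _ _)
  exact ⟨e, he0, by linarith, core_e L hL hL1 κ ε e hκ he0 he1 he2 he3⟩

end Pool.Agent.H8.AT
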