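import Pool.Agent.H8.AT.Core

/-!
# The lower limit of the reciprocal sum over primes along a set of integers
-/

set_option autoImplicit false

namespace Pool.Agent.H8.AT

open Finset Filter H63.WP N5dc7309f

/-- The lower limit of `f` along the set `A`, in the extended reals. -/
noncomputable def lowOn (A : Set ℕ) : EReal := liminf (fun n : ℕ => ((f n : ℝ) : EReal)) (atTop ⊓ 𝓟 A)

/-- `n` has an element of `A` in `(n - δ log n, n]`. -/
def Near (A : Set ℕ) (δ : ℝ) (n : ℕ) : Prop := ∃ a ∈ A, a ≤ n ∧ (n : ℝ) - δ * Real.log n < a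

theorem f_cmp (a n : ℕ) (ha : a ≤ n) (T d : ℝ) (hT : 1 < T) (h1 : (n : ℝ) - a ≤ d)
    (h2 : ∀ p : ℕ, p.Prime → p < a → T * d ≤ (n : ℝ) - p) : (1 - 1 / T) * f a ≤ f n := by
  unfold f
  rw [mul_sum]
  have hsub : (range a).filter Prime ⊆ (range n).filter Prime :=
    filter_subset_filter _ (range_subset_range.2 ha)
  refine le_trans ?_ (sum_le_sum_of_subset_of_nonneg hsub fun p hp _ => ?_)
  · refine sum_le_sum fun p hp => ?_
    rw [mem_filter, mem_range] at hp
    have hpa : (p : ℝ) < a := by exact_mod_cast hp.1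
    have han : (a : ℝ) ≤ n := by exact_mod_cast ha
    have h3 := h2 p (Nat.prime_iff.2 hp.2) hp.1
    have h4 : (0 : ℝ) < a - p := by linarith
    have h5 : (0 : ℝ) < n - p := by linarith
    rw [mul_one_div, div_le_div_iff₀ h4 h5]
    have h6 : d ≤ ((n : ℝ) - p) / T := by
      rw [le_div_iff₀ (by linarith)]
      linarith
    have h7 : (1 - 1 / T) * ((n : ℝ) - p) = ((n : ℝ) - p) - ((n : ℝ) - p) / T := by ring
    rw [h7]
    linarith
  · rw [mem_filter, mem_range] at hp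
    have : (p : ℝ) < n := by exact_mod_cast hp.1
    exact div_nonneg zero_le_one (by linarith)

/-- few integers of a window have a prime at distance at most `h` to their left -/
theorem prime_near (C : ℝ) (hC : ∀ M X : ℕ, 2 ≤ X →
    (((Ioc M (M + X)).filter Nat.Prime).card : ℝ) ≤ C * X / Real.log X) (N V h : ℕ) (hV : 2 ≤ V)
    (hh : h + V ≤ N) :
    (((Ioc (N - V) N).filter (fun n => ∃ j ∈ Ioc 0 h, (n - j).Prime)).card : ℝ) ≤
      h * (C * V / Real.log V) := by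
  classical
  have h1 : (Ioc (N - V) N).filter (fun n => ∃ j ∈ Ioc 0 h, (n - j).Prime) ⊆
      (Ioc 0 h).biUnion fun j => (Ioc (N - V) N).filter (fun n => (n - j).Prime) := by
    intro n hn
    rw [mem_filter] at hn
    obtain ⟨hn1, j, hj, hp⟩ := hn
    rw [mem_biUnion]
    exact ⟨j, hj, mem_filter.2 ⟨hn1, hp⟩⟩
  have h2 : ∀ j ∈ Ioc 0 h, (((Ioc (N - V) N).filter (fun n => (n - j).Prime)).card : ℝ) ≤
      C * V / Real.log V := by
    intro j hj
    rw [mem_Ioc] at hj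
    refine le_trans ?_ (hC (N - V - j) V hV)
    have h3 : ((Ioc (N - V) N).filter (fun n => (n - j).Prime)).card ≤
        ((Ioc (N - V - j) (N - V - j + V)).filter Nat.Prime).card := by
      refine card_le_card_of_injOn (fun n => n - j) ?_ ?_
      · intro n hn
        simp only [coe_filter, mem_Ioc, Set.mem_ofPred_eq] at hn ⊢
        exact ⟨by omega, hn.2⟩
      · intro n hn n' hn' hnn
        simp only [coe_filter, mem_Ioc, Set.mem_ofPred_eq] at hn hn'
        simp only at hnn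
        omega
    exact_mod_cast h3
  calc (((Ioc (N - V) N).filter (fun n => ∃ j ∈ Ioc 0 h, (n - j).Prime)).card : ℝ)
      ≤ (((Ioc 0 h).biUnion fun j => (Ioc (N - V) N).filter (fun n => (n - j).Prime)).card : ℝ) := by
        exact_mod_cast card_le_card h1
    _ ≤ ∑ j ∈ Ioc 0 h, (((Ioc (N - V) N).filter (fun n => (n - j).Prime)).card : ℝ) := by
        exact_mod_cast card_biUnion_le
    _ ≤ ∑ _j ∈ Ioc 0 h, C * V / Real.log V := sum_le_sum h2
    _ = h * (C * V / Real.log V) := by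
        rw [sum_const, Nat.card_Ioc, nsmul_eq_mul, Nat.sub_zero]

open Classical in
theorem key (A : Set ℕ) (η : ℝ) (hη : 0 < η) (L κ s δ C T : ℝ) (hκ : 0 < κ)
    (hs : 0 < s) (hδ0 : 0 < δ) (hδ1 : δ ≤ 1 / 2) (hC : 0 < C)
    (hpi : ∀ M X : ℕ, 2 ≤ X → (((Ioc M (M + X)).filter Nat.Prime).card : ℝ) ≤ C * X / Real.log X)
    (hT2 : 2 ≤ T) (hTc' : (L + 2 * κ) / T ≤ κ) (hδ2 : 2 * T * δ * C / s ≤ η / 4)
    (hfr : ∃ᶠ N : ℕ in atTop, ∃ V : ℕ, (N : ℝ) ^ s ≤ V ∧ 2 * V ≤ N ∧
      (((Ioc (N - V) N).filter (fun n => κ < |f n - L|)).card : ℝ) ≤ η / 4 * V)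
    (hA : ∀ᶠ N : ℕ in atTop, ∀ V : ℕ, (N : ℝ) ^ s ≤ V → 2 * V ≤ N →
      η * V ≤ (((Ioc (N - V) N).filter (Near A δ)).card : ℝ)) :
    lowOn A ≤ ((L + 2 * κ : ℝ) : EReal) := by
  by_contra hcon
  push Not at hcon
  obtain ⟨c, hce⟩ : ∃ c : ℝ, c = L + 2 * κ := ⟨_, rfl⟩
  rw [← hce] at hcon hTc'
  have hTc := hTc'
  have hT0 : 0 < T := by linarith
  have hev := eventually_lt_of_lt_liminf hcon
  rw [eventually_inf_principal] at hev
  obtain ⟨n1, hn1⟩ := eventually_atTop.1 hev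
  -- large `N`
  have e1 : ∀ᶠ N : ℕ in atTop, 1 / (T * δ) ≤ Real.log N :=
    (Real.tendsto_log_atTop.comp tendsto_natCast_atTop_atTop).eventually_ge_atTop _
  have e2 : ∀ᶠ N : ℕ in atTop, 8 * T * (1 + Real.log N) ≤ (N : ℝ) ^ (1 : ℝ) :=
    ev_log_pow (8 * T) 1 one_pos
  have e3 : ∀ᶠ N : ℕ in atTop, (2 : ℝ) ≤ (N : ℝ) ^ s := ev_pow s 2 hs
  obtain ⟨N, ⟨V, hV1, hV2, hV3⟩, hA1, g1, g2, g3, g4⟩ := (hfr.and_eventually
    (hA.and (e1.and (e2.and (e3.and
      (eventually_ge_atTop (4 * n1 + 4))))))).exists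
  rw [Real.rpow_one] at g2
  have hNpos : (0 : ℝ) < N := by exact_mod_cast (by omega : 0 < N)
  have hV2R : (2 : ℝ) ≤ V := g3.trans hV1
  have hV2' : 2 ≤ V := by exact_mod_cast hV2R
  have hlogN : 0 < Real.log N := lt_of_lt_of_le (by positivity) g1
  have hTδ1 : 1 ≤ T * δ * Real.log N := by
    rw [div_le_iff₀ (by positivity)] at g1
    linarith
  obtain ⟨h, hhe⟩ : ∃ h : ℕ, h = ⌈T * δ * Real.log N⌉₊ := ⟨_, rfl⟩
  have hh1 : T * δ * Real.log N ≤ h := by rw [hhe]; exact Nat.le_ceil _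
  have hh2 : (h : ℝ) ≤ 2 * (T * δ * Real.log N) := by
    have := Nat.ceil_lt_add_one (show 0 ≤ T * δ * Real.log N by positivity)
    rw [← hhe] at this
    linarith
  have hhN : (h : ℝ) ≤ N / 4 := by
    have h1 : T * δ * Real.log N ≤ T * (1 / 2) * Real.log N := by gcongr
    nlinarith
  have hhV : h + V ≤ N := by
    have h1 : (V : ℝ) ≤ N / 2 := by
      have : (2 * V : ℝ) ≤ N := by exact_mod_cast hV2
      linarith
    have h2 : (h : ℝ) + V ≤ N := by linarith
    exact_mod_cast h2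
  have c1 := hA1 V hV1 hV2
  have c3 := prime_near C hpi N V h hV2' hhV
  have hlogV : s * Real.log N ≤ Real.log V := by
    rw [← Real.log_rpow hNpos]
    exact Real.log_le_log (by positivity) hV1
  have c3' : (((Ioc (N - V) N).filter (fun n => ∃ j ∈ Ioc 0 h, (n - j).Prime)).card : ℝ) ≤
      η / 4 * V := by
    refine c3.trans ?_
    have hsl : 0 < s * Real.log N := by positivity
    calc (h : ℝ) * (C * V / Real.log V) ≤ 2 * (T * δ * Real.log N) * (C * V / (s * Real.log N)) := by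
          gcongr
      _ = 2 * T * δ * C / s * V := by
          field_simp
      _ ≤ η / 4 * V := mul_le_mul_of_nonneg_right hδ2 (by positivity)
  -- a good integer
  have hex : ∃ n ∈ (Ioc (N - V) N).filter (Near A δ),
      n ∉ (Ioc (N - V) N).filter (fun n => κ < |f n - L|) ∪
        (Ioc (N - V) N).filter (fun n => ∃ j ∈ Ioc 0 h, (n - j).Prime) := by
    by_contra hno
    push Not at hno
    have h1 := card_le_card (show (Ioc (N - V) N).filter (Near A δ) ⊆ _ from hno)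
    have h2 := h1.trans (card_union_le _ _)
    have h3 : (((Ioc (N - V) N).filter (Near A δ)).card : ℝ) ≤
        (((Ioc (N - V) N).filter (fun n => κ < |f n - L|)).card : ℝ) +
        (((Ioc (N - V) N).filter (fun n => ∃ j ∈ Ioc 0 h, (n - j).Prime)).card : ℝ) := by
      exact_mod_cast h2
    have h4 : 0 < η * V := by positivity
    linarith
  obtain ⟨n, hn, hn2⟩ := hex
  rw [mem_filter, mem_Ioc] at hn
  obtain ⟨⟨hnl, hnr⟩, a, haA, han, hal⟩ := hn
  rw [mem_union, not_or, mem_filter, mem_filter, mem_Ioc] at hn2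
  obtain ⟨hn3, hn4⟩ := hn2
  have hfn : f n ≤ L + κ := by
    by_contra hlt
    push Not at hlt
    exact hn3 ⟨⟨hnl, hnr⟩, lt_abs.2 (Or.inl (by linarith))⟩
  have hnN : (n : ℝ) ≤ N := by exact_mod_cast hnr
  have hn0 : (0 : ℝ) < n := by
    have : 0 < n := by omega
    exact_mod_cast this
  have hlogn : Real.log n ≤ Real.log N := Real.log_le_log hn0 hnN
  have hd : (n : ℝ) - a ≤ δ * Real.log N := by
    have : δ * Real.log n ≤ δ * Real.log N := by gcongr
    linarith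
  have ha1 : n1 ≤ a := by
    have h1 : (N : ℝ) / 2 ≤ n := by
      have : N ≤ 2 * n := by omega
      have h2 : (N : ℝ) ≤ 2 * n := by exact_mod_cast this
      linarith
    have h2 : δ * Real.log N ≤ N / 4 := by
      nlinarith [mul_nonneg (sub_nonneg.2 hT2) hlogN.le, mul_nonneg (sub_nonneg.2 hδ1) hlogN.le]
    have h3 : (n1 : ℝ) ≤ N / 4 := by
      have : (4 * n1 + 4 : ℝ) ≤ N := by exact_mod_cast g4
      linarith
    have h4 : (n1 : ℝ) ≤ a := by linarith
    exact_mod_cast h4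
  have hfa : c < f a := by exact_mod_cast hn1 a ha1 haA
  have hcmp := f_cmp a n han T (δ * Real.log N) (by linarith) hd (by
    intro p hp hpa
    by_contra hlt
    push Not at hlt
    refine hn4 ⟨⟨hnl, hnr⟩, n - p, ?_, ?_⟩
    · rw [mem_Ioc]
      refine ⟨by omega, ?_⟩
      have h1 : ((n - p : ℕ) : ℝ) = (n : ℝ) - p := by rw [Nat.cast_sub (by omega)]
      have h2 : ((n - p : ℕ) : ℝ) ≤ h := by
        rw [h1]
        nlinarith
      exact_mod_cast h2
    · have : n - (n - p) = p := by omega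
      rw [this]
      exact hp)
  have hT1 : 0 < 1 - 1 / T := by
    have : 1 / T ≤ 1 / 2 := one_div_le_one_div_of_le (by norm_num) hT2
    linarith
  have h9 : (1 - 1 / T) * c < (1 - 1 / T) * f a := mul_lt_mul_of_pos_left hfa hT1
  have h10 : (1 - 1 / T) * c = c - c / T := by ring
  rw [h10] at h9
  linarith

open Classical in
theorem main (A : Set ℕ) (η : ℝ) (hη : 0 < η)
    (hA : ∀ s δ : ℝ, 0 < s → s < 1 → 0 < δ → δ < 1 → ∀ᶠ N : ℕ in atTop, ∀ V : ℕ,
      (N : ℝ) ^ s ≤ V → 2 * V ≤ N →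
      η * V ≤ (((Ioc (N - V) N).filter (Near A δ)).card : ℝ)) :
    lowOn A = low f := by
  refine le_antisymm ?_ (liminf_le_liminf_of_le inf_le_left)
  obtain ⟨L, hL, hL0, hL1⟩ := exists_real (low_nonneg f_nonneg) f_low_le_one
  by_contra hcon
  push Not at hcon
  obtain ⟨c, hc1, hc2⟩ := EReal.lt_iff_exists_real_btwn.1 hcon
  rw [hL] at hc1
  have hLc : L < c := by exact_mod_cast hc1
  obtain ⟨κ, hκe⟩ : ∃ κ : ℝ, κ = (c - L) / 2 := ⟨_, rfl⟩
  have hκ : 0 < κ := by rw [hκe]; linarith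
  have hcκ : L + 2 * κ = c := by rw [hκe]; ring
  obtain ⟨s, hs, hs1, hfr⟩ := core L hL hL1 κ (η / 4) hκ (by linarith)
  obtain ⟨C, hC, hpi⟩ := Pool.Agent.H24.LJ.pi_loc
  obtain ⟨T, hTe⟩ : ∃ T : ℝ, T = max 2 (c / κ) := ⟨_, rfl⟩
  have hT2 : 2 ≤ T := by rw [hTe]; exact le_max_left _ _
  have hT0 : 0 < T := by linarith
  have hTc : c / T ≤ κ := by
    rw [div_le_iff₀ (by linarith)]
    have h1 : c / κ ≤ T := by rw [hTe]; exact le_max_right _ _
    rw [div_le_iff₀ hκ] at h1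
    linarith
  obtain ⟨δ, hδe⟩ : ∃ δ : ℝ, δ = min (1 / 2) (η * s / (8 * C * T)) := ⟨_, rfl⟩
  have hδ0 : 0 < δ := by rw [hδe]; positivity
  have hδ1 : δ ≤ 1 / 2 := by rw [hδe]; exact min_le_left _ _
  have hδ2 : 2 * T * δ * C / s ≤ η / 4 := by
    have h1 : δ ≤ η * s / (8 * C * T) := by rw [hδe]; exact min_le_right _ _
    rw [le_div_iff₀ (by positivity)] at h1
    rw [div_le_iff₀ hs]
    nlinarith
  have h := key A η hη L κ s δ C T hκ hs hδ0 hδ1 hC hpi hT2 (by rw [hcκ]; exact hTc) hδ2 hfr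
    (hA s δ hs hs1 hδ0 (by linarith))
  rw [hcκ] at h
  exact absurd hc2 (not_lt.2 h)

end Pool.Agent.H8.AT
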